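import Pool.Agent.Lib.MP_144d21_co.XU.Iface

/-!
# MP_144d21_co, project XU, module ALPHA: `0` is a simple root for connected graphs
-/

set_option autoImplicit false

namespace Pool.Agent.Xu.H16

open Finset Polynomial

variable {V : Type} [Fintype V] [DecidableEq V]

omit [Fintype V] in
theorem conn_con {G : SimpleGraph V} {S : Finset V} {v w : V} (hw : w ∈ S)
    (hvw : G.Adj v w) (hS : Conn G S) : Conn (con G v w) (S.erase v) := by
  have hne : w ≠ v := hvw.ne'
  have hwe : w ∈ S.erase v := mem_erase.2 ⟨hne, hw⟩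
  refine ⟨⟨w, hwe⟩, ?_⟩
  intro A hA hAn hAS
  have hvA : v ∉ A := fun h => (mem_erase.1 (hA h)).1 rfl
  have hAS' : ∀ a ∈ A, a ∈ S := fun a ha => (mem_erase.1 (hA ha)).2
  by_cases hwA : w ∈ A
  · by_cases hvS : v ∈ S
    · have h1 : insert v A ⊆ S := by
        intro a ha
        rcases mem_insert.1 ha with rfl | ha
        · exact hvS
        · exact hAS' a ha
      have h2 : insert v A ≠ S := by
        intro h
        apply hAS
        rw [← h, erase_insert hvA]
      obtain ⟨a, ha, b, hb, hbA, hab⟩ := hS.2 (insert v A) h1 ⟨v, mem_insert_self _ _⟩ h2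
      have hbv : b ≠ v := fun h => hbA (h ▸ mem_insert_self _ _)
      have hbA' : b ∉ A := fun h => hbA (mem_insert_of_mem h)
      rcases mem_insert.1 ha with rfl | ha'
      · refine ⟨w, hwA, b, mem_erase.2 ⟨hbv, hb⟩, hbA', ?_, Or.inr (Or.inl ⟨rfl, hab⟩)⟩
        rintro rfl
        exact hbA' hwA
      · exact ⟨a, ha', b, mem_erase.2 ⟨hbv, hb⟩, hbA', hab.ne, Or.inl hab⟩
    · have h2 : A ≠ S := by
        intro h
        apply hAS
        rw [erase_eq_of_notMem hvS, h]
      obtain ⟨a, ha, b, hb, hbA, hab⟩ := hS.2 A hAS' hAn h2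
      have hbv : b ≠ v := fun h => hvS (h ▸ hb)
      exact ⟨a, ha, b, mem_erase.2 ⟨hbv, hb⟩, hbA, hab.ne, Or.inl hab⟩
  · have h2 : A ≠ S := fun h => hwA (h ▸ hw)
    obtain ⟨a, ha, b, hb, hbA, hab⟩ := hS.2 A hAS' hAn h2
    by_cases hbv : b = v
    · subst hbv
      refine ⟨a, ha, w, hwe, hwA, ?_, Or.inr (Or.inr ⟨rfl, hab.symm⟩)⟩
      rintro rfl
      exact hwA ha
    · exact ⟨a, ha, b, mem_erase.2 ⟨hbv, hb⟩, hbA, hab.ne, Or.inl hab⟩

theorem card_cols_of_no_edge {G : SimpleGraph V} {S : Finset V} (h : ∀ u ∈ S, ∀ v ∈ S, ¬ G.Adj u v)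
    (q : ℕ) : (cols G S q).card = q ^ S.card := by
  classical
  unfold cols
  rw [filter_true_of_mem (fun c _ u hu v hv ha => absurd ha (h u hu v hv)), Fintype.card_piFinset]
  have h1 : ∀ v : V, (if v ∈ S then range q else ({0} : Finset ℕ)).card = if v ∈ S then q else 1 := by
    intro v
    split_ifs <;> simp
  simp only [h1]
  rw [prod_ite, prod_const_one, mul_one, prod_const, filter_mem_eq_inter, univ_inter]

theorem chi_of_no_edge {G : SimpleGraph V} {S : Finset V} (h : ∀ u ∈ S, ∀ v ∈ S, ¬ G.Adj u v) :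
    chi G S = X ^ S.card := by
  symm
  apply IsChi.eq_chi
  intro q
  rw [card_cols_of_no_edge h]
  simp

theorem alp_dc (hdc : ChidcS) {G : SimpleGraph V} {S : Finset V} {v w : V} (hv : v ∈ S)
    (hw : w ∈ S) (hvw : G.Adj v w) :
    alp G S = alp (del G v w) S + alp (con G v w) (S.erase v) := by
  have h1 : chi (del G v w) S = chi G S + chi (con G v w) (S.erase v) := hdc V G S v w hv hw hvw
  have h2 : chi G S = chi (del G v w) S - chi (con G v w) (S.erase v) := by
    rw [h1]; ring
  have h3 : (S.erase v).card + 1 = S.card := card_erase_add_one hv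
  unfold alp
  rw [h2, derivative_sub, eval_sub, h3, pow_succ]
  ring

theorem alp_aux (hnec : NecntS) (hdc : ChidcS) : ∀ (n : ℕ) (G : SimpleGraph V) (S : Finset V),
    ne G S = n → S.Nonempty → 0 ≤ alp G S ∧ (Conn G S → 0 < alp G S) := by
  intro n
  induction n using Nat.strong_induction_on with
  | _ n ih =>
    intro G S hn hS
    by_cases hE : ∀ u ∈ S, ∀ v ∈ S, ¬ G.Adj u v
    · have hchi := chi_of_no_edge hE
      have hcard : 0 < S.card := hS.card_pos
      unfold alp
      rw [hchi, derivative_X_pow, eval_mul, eval_pow, eval_X, eval_C]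
      rcases Nat.lt_or_ge 1 S.card with h1 | h1
      · have h0 : (0 : ℤ) ^ (S.card - 1) = 0 := zero_pow (by omega)
        rw [h0, mul_zero, mul_zero]
        refine ⟨le_refl _, ?_⟩
        intro hC
        exfalso
        obtain ⟨s, hs⟩ := hS
        have h2 : ({s} : Finset V) ≠ S := by
          intro h
          rw [← h, card_singleton] at h1
          exact lt_irrefl _ h1
        obtain ⟨a, ha, b, hb, _, hab⟩ := hC.2 {s} (singleton_subset_iff.2 hs)
          (singleton_nonempty s) h2
        rw [mem_singleton] at ha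
        subst ha
        exact hE a hs b hb hab
      · have h2 : S.card = 1 := by omega
        rw [h2]
        norm_num
    · push Not at hE
      obtain ⟨v, hv, w, hw, hvw⟩ := hE
      obtain ⟨hd, hc⟩ := (hnec V G S).1 v hv w hw hvw
      have hwe : w ∈ S.erase v := mem_erase.2 ⟨hvw.ne', hw⟩
      have h1 := ih (ne (del G v w) S) (by omega) (del G v w) S rfl hS
      have h2 := ih (ne (con G v w) (S.erase v)) (by omega) (con G v w) (S.erase v) rfl ⟨w, hwe⟩
      rw [alp_dc hdc hv hw hvw]
      refine ⟨by linarith [h1.1, h2.1], fun hC => ?_⟩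
      have h3 := h2.2 (conn_con hw hvw hC)
      linarith [h1.1]

theorem alpha (hnec : NecntS) (hdc : ChidcS) : AlphaS := by
  intro V _ _ G S hC
  exact (alp_aux hnec hdc (ne G S) G S rfl hC.1).2 hC

end Pool.Agent.Xu.H16
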