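import Pool.Agent.Lib.MP_144d21_co.XU.Iface

/-!
# MP_144d21_co, project XU, module FIBER: Kempe changes
-/

set_option autoImplicit false

namespace Pool.Agent.Xu.H16

open Finset

variable {V : Type} [Fintype V] [DecidableEq V]

/-- the vertices of the colours `i`, `j` -/
def twoCol (S : Finset V) (c : V → ℕ) (i j : ℕ) : Set V := {v | v ∈ S ∧ (c v = i ∨ c v = j)}

/-- Kempe components -/
abbrev KC (G : SimpleGraph V) (S : Finset V) (c : V → ℕ) (i j : ℕ) : Type :=
  (G.induce (twoCol S c i j)).ConnectedComponent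

/-- Kempe component of a vertex -/
def kcOf (G : SimpleGraph V) {S : Finset V} {c : V → ℕ} {i j : ℕ} {v : V}
    (h : v ∈ twoCol S c i j) : KC G S c i j :=
  (G.induce (twoCol S c i j)).connectedComponentMk ⟨v, h⟩

theorem kcOf_eq {G : SimpleGraph V} {S : Finset V} {c : V → ℕ} {i j : ℕ} {u v : V}
    (hu : u ∈ twoCol S c i j) (hv : v ∈ twoCol S c i j) (ha : G.Adj u v) :
    kcOf G hu = kcOf G hv := by
  unfold kcOf
  rw [SimpleGraph.ConnectedComponent.eq]
  apply SimpleGraph.Adj.reachable
  exact ha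

open Classical in
/-- the Kempe change on the components of `T` -/
noncomputable def kch (G : SimpleGraph V) (S : Finset V) (c : V → ℕ) (i j : ℕ)
    (T : Finset (KC G S c i j)) (v : V) : ℕ :=
  if h : v ∈ twoCol S c i j then
    (if kcOf G h ∈ T then Equiv.swap i j (c v) else c v)
  else c v

theorem kch_of_not {G : SimpleGraph V} {S : Finset V} {c : V → ℕ} {i j : ℕ}
    {T : Finset (KC G S c i j)} {v : V} (h : v ∉ twoCol S c i j) : kch G S c i j T v = c v := by
  unfold kch
  rw [dif_neg h]

theorem kch_of_notMem {G : SimpleGraph V} {S : Finset V} {c : V → ℕ} {i j : ℕ}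
    {T : Finset (KC G S c i j)} {v : V} (h : v ∈ twoCol S c i j) (hT : kcOf G h ∉ T) :
    kch G S c i j T v = c v := by
  unfold kch
  rw [dif_pos h, if_neg hT]

theorem kch_of_mem {G : SimpleGraph V} {S : Finset V} {c : V → ℕ} {i j : ℕ}
    {T : Finset (KC G S c i j)} {v : V} (h : v ∈ twoCol S c i j) (hT : kcOf G h ∈ T) :
    kch G S c i j T v = Equiv.swap i j (c v) := by
  unfold kch
  rw [dif_pos h, if_pos hT]

theorem kch_two {G : SimpleGraph V} {S : Finset V} {c : V → ℕ} {i j : ℕ}
    {T : Finset (KC G S c i j)} {v : V} (h : v ∈ twoCol S c i j) :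
    kch G S c i j T v = i ∨ kch G S c i j T v = j := by
  by_cases hT : kcOf G h ∈ T
  · rw [kch_of_mem h hT]
    rcases h.2 with h0 | h0
    · rw [h0, Equiv.swap_apply_left]; exact Or.inr rfl
    · rw [h0, Equiv.swap_apply_right]; exact Or.inl rfl
  · rw [kch_of_notMem h hT]
    exact h.2

theorem kch_mem_cols {G : SimpleGraph V} {S : Finset V} {c : V → ℕ} {i j : ℕ} (hi : i < 4)
    (hj : j < 4) (hc : c ∈ cols G S 4) (T : Finset (KC G S c i j)) :
    kch G S c i j T ∈ cols G S 4 := by
  rw [mem_cols] at hc ⊢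
  obtain ⟨c1, c2, c3⟩ := hc
  refine ⟨fun v hv => ?_, fun v hv => ?_, fun u hu v hv ha => ?_⟩
  · by_cases h : v ∈ twoCol S c i j
    · rcases kch_two (T := T) h with h0 | h0
      · rw [h0]; exact hi
      · rw [h0]; exact hj
    · rw [kch_of_not h]; exact c1 v hv
  · have h : v ∉ twoCol S c i j := fun h => hv h.1
    rw [kch_of_not h]; exact c2 v hv
  · have hne := c3 u hu v hv ha
    by_cases h1 : u ∈ twoCol S c i j
    · by_cases h2 : v ∈ twoCol S c i j
      · have hk := kcOf_eq h1 h2 ha
        by_cases hT : kcOf G h1 ∈ T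
        · rw [kch_of_mem h1 hT, kch_of_mem h2 (hk ▸ hT)]
          exact fun h0 => hne ((Equiv.swap i j).injective h0)
        · rw [kch_of_notMem h1 hT, kch_of_notMem h2 (hk ▸ hT)]
          exact hne
      · rw [kch_of_not h2]
        intro h0
        apply h2
        refine ⟨hv, ?_⟩
        rw [← h0]
        exact kch_two h1
    · by_cases h2 : v ∈ twoCol S c i j
      · rw [kch_of_not h1]
        intro h0
        apply h1
        refine ⟨hu, ?_⟩
        rw [h0]
        exact kch_two h2
      · rw [kch_of_not h1, kch_of_not h2]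
        exact hne

theorem merge_kch {G : SimpleGraph V} {S : Finset V} {c : V → ℕ} {i j : ℕ}
    (T : Finset (KC G S c i j)) (v : V) : merge i j (kch G S c i j T v) = merge i j (c v) := by
  by_cases h : v ∈ twoCol S c i j
  · have h1 : ∀ n, n = i ∨ n = j → merge i j n = i := by
      rintro n (rfl | rfl)
      · unfold merge
        split_ifs
        · rfl
        · rfl
      · unfold merge
        rw [if_pos rfl]
    rw [h1 _ (kch_two h), h1 _ h.2]
  · rw [kch_of_not h]

theorem kch_injective {G : SimpleGraph V} {S : Finset V} {c : V → ℕ} {i j : ℕ} (hij : i ≠ j) :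
    Function.Injective (kch G S c i j) := by
  intro T T' hTT
  ext K
  obtain ⟨⟨v, hv⟩, hK⟩ : ∃ w, (G.induce (twoCol S c i j)).connectedComponentMk w = K :=
    Quot.exists_rep K
  have hK' : kcOf G hv = K := hK
  have h0 := congrFun hTT v
  have hne : Equiv.swap i j (c v) ≠ c v := by
    rcases hv.2 with h1 | h1
    · rw [h1, Equiv.swap_apply_left]; exact hij.symm
    · rw [h1, Equiv.swap_apply_right]; exact hij
  constructor
  · intro h
    by_contra h'
    rw [← hK'] at h h'
    rw [kch_of_mem hv h, kch_of_notMem hv h'] at h0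
    exact hne h0
  · intro h'
    by_contra h
    rw [← hK'] at h h'
    rw [kch_of_notMem hv h, kch_of_mem hv h'] at h0
    exact hne h0.symm

theorem fiber_aux {G : SimpleGraph V} {S : Finset V} {x y z : V} {i j : ℕ} (hx : x ∈ S)
    (hxy : G.Adj x y) (hxz : G.Adj x z) (hi : i < 4) (hj : j < 4) (hij : i ≠ j) {c : V → ℕ}
    (hc : c ∈ cols G S 4) (hxc : x ∈ twoCol S c i j) :
    2 ^ kap G S c i j ≤ 2 * cM G S {x, y, z} i j c := by
  classical
  have hk : kap G S c i j = Nat.card (KC G S c i j) := rfl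
  rw [Nat.card_eq_fintype_card] at hk
  have hpos : 0 < Fintype.card (KC G S c i j) := Fintype.card_pos_iff.2 ⟨kcOf G hxc⟩
  have h1 : (powerset (univ.erase (kcOf G hxc))).card ≤ cM G S {x, y, z} i j c := by
    unfold cM
    apply card_le_card_of_injOn (kch G S c i j)
    · intro T hT
      rw [mem_coe, mem_powerset] at hT
      have hxT : kcOf G hxc ∉ T := fun h => (mem_erase.1 (hT h)).1 rfl
      rw [mem_coe, mem_filter]
      have hnb : ∀ u, G.Adj x u → kch G S c i j T u = c u := by
        intro u hu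
        by_cases h : u ∈ twoCol S c i j
        · exact kch_of_notMem h ((kcOf_eq hxc h hu) ▸ hxT)
        · exact kch_of_not h
      refine ⟨kch_mem_cols hi hj hc T, ?_, fun u _ => merge_kch T u⟩
      intro u hu
      simp only [mem_insert, mem_singleton] at hu
      rcases hu with rfl | rfl | rfl
      · exact kch_of_notMem hxc hxT
      · exact hnb _ hxy
      · exact hnb _ hxz
    · exact (kch_injective hij).injOn
  rw [card_powerset, card_erase_of_mem (mem_univ _), card_univ] at h1
  rw [hk]
  calc 2 ^ Fintype.card (KC G S c i j) = 2 * 2 ^ (Fintype.card (KC G S c i j) - 1) := by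
        rw [← pow_succ']
        congr 1
        omega
    _ ≤ 2 * cM G S {x, y, z} i j c := Nat.mul_le_mul_left 2 h1

theorem fiber : FiberS := by
  classical
  intro V _ _ G S x y z i j hx hy hz hxy hyz hxz hij hj c hc
  have hc' := hc
  rw [mem_cols] at hc'
  obtain ⟨c1, _, c3⟩ := hc'
  have hi : i < 4 := lt_trans hij hj
  have a1 := c1 x hx
  have a2 := c1 y hy
  have a3 := c1 z hz
  have b1 := c3 x hx y hy hxy
  have b2 := c3 y hy z hz hyz
  have b3 := c3 x hx z hz hxz
  by_cases h1 : x ∈ twoCol S c i j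
  · exact fiber_aux hx hxy hxz hi hj hij.ne hc h1
  by_cases h2 : y ∈ twoCol S c i j
  · have h := fiber_aux (z := z) hy hxy.symm hyz hi hj hij.ne hc h2
    have e : ({y, x, z} : Finset V) = {x, y, z} := by
      ext u
      simp only [mem_insert, mem_singleton]
      tauto
    rw [e] at h
    exact h
  by_cases h3 : z ∈ twoCol S c i j
  · have h := fiber_aux (z := y) hz hxz.symm hyz.symm hi hj hij.ne hc h3
    have e : ({z, x, y} : Finset V) = {x, y, z} := by
      ext u
      simp only [mem_insert, mem_singleton]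
      tauto
    rw [e] at h
    exact h
  exfalso
  have n1 : c x ≠ i ∧ c x ≠ j := ⟨fun h => h1 ⟨hx, Or.inl h⟩, fun h => h1 ⟨hx, Or.inr h⟩⟩
  have n2 : c y ≠ i ∧ c y ≠ j := ⟨fun h => h2 ⟨hy, Or.inl h⟩, fun h => h2 ⟨hy, Or.inr h⟩⟩
  have n3 : c z ≠ i ∧ c z ≠ j := ⟨fun h => h3 ⟨hz, Or.inl h⟩, fun h => h3 ⟨hz, Or.inr h⟩⟩
  omega

end Pool.Agent.Xu.H16
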