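import Pool.Agent.Lib.MP_144d21_co.XU.Iface

/-!
# MP_144d21_co, project XU, module TRISYM: colour symmetry at a triangle
-/

set_option autoImplicit false

namespace Pool.Agent.Xu.H16

open Finset

variable {V : Type} [Fintype V] [DecidableEq V]

/-- colourings with prescribed colours at three vertices -/
noncomputable def fib (G : SimpleGraph V) (S : Finset V) (x y z : V) (t : ℕ × ℕ × ℕ) :
    Finset (V → ℕ) := by
  classical
  exact (cols G S 4).filter fun c' => (c' x, c' y, c' z) = t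

theorem mem_fib {G : SimpleGraph V} {S : Finset V} {x y z : V} {t : ℕ × ℕ × ℕ} {c : V → ℕ} :
    c ∈ fib G S x y z t ↔ c ∈ cols G S 4 ∧ (c x, c y, c z) = t := by
  classical
  unfold fib
  rw [mem_filter]

/-- injective triples of colours -/
def trip : Finset (ℕ × ℕ × ℕ) :=
  (range 4 ×ˢ range 4 ×ˢ range 4).filter fun t => t.1 ≠ t.2.1 ∧ t.2.1 ≠ t.2.2 ∧ t.1 ≠ t.2.2

theorem card_trip : trip.card = 24 := by decide

theorem mem_trip {i j k : ℕ} : (i, j, k) ∈ trip ↔ (i < 4 ∧ j < 4 ∧ k < 4) ∧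
    i ≠ j ∧ j ≠ k ∧ i ≠ k := by
  unfold trip
  simp only [mem_filter, mem_product, mem_range]

theorem swap_lt {a b n : ℕ} (ha : a < 4) (hb : b < 4) (hn : n < 4) : Equiv.swap a b n < 4 := by
  rw [Equiv.swap_apply_def]
  split_ifs <;> assumption

theorem exists_perm {i j k i' j' k' : ℕ} (h : (i, j, k) ∈ trip) (h' : (i', j', k') ∈ trip) :
    ∃ σ : Equiv.Perm ℕ, (∀ n, n < 4 → σ n < 4) ∧ σ i = i' ∧ σ j = j' ∧ σ k = k' := by
  obtain ⟨⟨hi, hj, hk⟩, h1, h2, h3⟩ := mem_trip.1 h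
  obtain ⟨⟨hi', hj', hk'⟩, h1', h2', h3'⟩ := mem_trip.1 h'
  obtain ⟨s1, hs1⟩ : ∃ s1 : Equiv.Perm ℕ, s1 = Equiv.swap i i' := ⟨_, rfl⟩
  have e1 : s1 i = i' := by rw [hs1]; exact Equiv.swap_apply_left _ _
  have l1 : ∀ n, n < 4 → s1 n < 4 := fun n hn => by rw [hs1]; exact swap_lt hi hi' hn
  obtain ⟨s2, hs2⟩ : ∃ s2 : Equiv.Perm ℕ, s2 = Equiv.swap (s1 j) j' := ⟨_, rfl⟩
  have e2 : s2 (s1 j) = j' := by rw [hs2]; exact Equiv.swap_apply_left _ _
  have hji : s1 j ≠ i' := by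
    intro h0
    exact h1 (s1.injective (e1.trans h0.symm))
  have e2i : s2 i' = i' := by
    rw [hs2]
    exact Equiv.swap_apply_of_ne_of_ne hji.symm h1'
  have l2 : ∀ n, n < 4 → s2 n < 4 := fun n hn => by rw [hs2]; exact swap_lt (l1 j hj) hj' hn
  obtain ⟨s3, hs3⟩ : ∃ s3 : Equiv.Perm ℕ, s3 = Equiv.swap (s2 (s1 k)) k' := ⟨_, rfl⟩
  have e3 : s3 (s2 (s1 k)) = k' := by rw [hs3]; exact Equiv.swap_apply_left _ _
  have hki : s2 (s1 k) ≠ i' := by
    intro h0
    have h4 : s2 (s1 k) = s2 (s1 i) := by rw [h0, e1, e2i]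
    exact h3 (s1.injective (s2.injective h4)).symm
  have hkj : s2 (s1 k) ≠ j' := by
    intro h0
    have h4 : s2 (s1 k) = s2 (s1 j) := by rw [h0, e2]
    exact h2 (s1.injective (s2.injective h4)).symm
  have e3i : s3 i' = i' := by
    rw [hs3]
    exact Equiv.swap_apply_of_ne_of_ne hki.symm h3'
  have e3j : s3 j' = j' := by
    rw [hs3]
    exact Equiv.swap_apply_of_ne_of_ne hkj.symm h2'
  have l3 : ∀ n, n < 4 → s3 n < 4 := fun n hn => by
    rw [hs3]; exact swap_lt (l2 _ (l1 k hk)) hk' hn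
  refine ⟨(s1.trans s2).trans s3, fun n hn => l3 _ (l2 _ (l1 n hn)), ?_, ?_, ?_⟩
  · change s3 (s2 (s1 i)) = i'
    rw [e1, e2i, e3i]
  · change s3 (s2 (s1 j)) = j'
    rw [e2, e3j]
  · exact e3

theorem card_fib_le {G : SimpleGraph V} {S : Finset V} {x y z : V} (hx : x ∈ S) (hy : y ∈ S)
    (hz : z ∈ S) {i j k i' j' k' : ℕ} (h : (i, j, k) ∈ trip) (h' : (i', j', k') ∈ trip) :
    (fib G S x y z (i, j, k)).card ≤ (fib G S x y z (i', j', k')).card := by
  classical
  obtain ⟨σ, hl, hi, hj, hk⟩ := exists_perm h h'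
  apply card_le_card_of_injOn (fun c v => if v ∈ S then σ (c v) else 0)
  · intro c hc
    rw [mem_coe, mem_fib] at hc
    obtain ⟨hc, ht⟩ := hc
    rw [mem_cols] at hc
    obtain ⟨c1, c2, c3⟩ := hc
    simp only [Prod.mk.injEq] at ht
    obtain ⟨t1, t2, t3⟩ := ht
    rw [mem_coe, mem_fib, mem_cols]
    refine ⟨⟨fun v hv => ?_, fun v hv => ?_, fun u hu v hv ha => ?_⟩, ?_⟩
    · change (if v ∈ S then σ (c v) else 0) < 4
      rw [if_pos hv]; exact hl _ (c1 v hv)
    · change (if v ∈ S then σ (c v) else 0) = 0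
      rw [if_neg hv]
    · change (if u ∈ S then σ (c u) else 0) ≠ (if v ∈ S then σ (c v) else 0)
      rw [if_pos hu, if_pos hv]
      exact fun h0 => c3 u hu v hv ha (σ.injective h0)
    · change ((if x ∈ S then σ (c x) else 0), (if y ∈ S then σ (c y) else 0),
        (if z ∈ S then σ (c z) else 0)) = (i', j', k')
      rw [if_pos hx, if_pos hy, if_pos hz, t1, t2, t3, hi, hj, hk]
  · intro c hc d hd hcd
    rw [mem_coe, mem_fib, mem_cols] at hc hd
    funext v
    by_cases hv : v ∈ S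
    · have h0 := congrFun hcd v
      simp only [if_pos hv] at h0
      exact σ.injective h0
    · rw [hc.1.2.1 v hv, hd.1.2.1 v hv]

theorem trisym : TrisymS := by
  classical
  intro V _ _ G S x y z hx hy hz hxy hyz hxz c hc
  have hmem : ∀ c' ∈ cols G S 4, (c' x, c' y, c' z) ∈ trip := by
    intro c' hc'
    rw [mem_cols] at hc'
    obtain ⟨c1, _, c3⟩ := hc'
    exact mem_trip.2 ⟨⟨c1 x hx, c1 y hy, c1 z hz⟩, c3 x hx y hy hxy, c3 y hy z hz hyz,
      c3 x hx z hz hxz⟩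
  have hcN : cN G S {x, y, z} c = (fib G S x y z (c x, c y, c z)).card := by
    unfold cN fib
    congr 1
    ext c'
    simp only [mem_filter, mem_insert, mem_singleton, forall_eq_or_imp, forall_eq, Prod.mk.injEq]
  have hsum := card_eq_sum_card_fiberwise (f := fun c' : V → ℕ => (c' x, c' y, c' z))
    (s := cols G S 4) (t := trip) hmem
  have hall : ∀ t ∈ trip, ((cols G S 4).filter fun c' => (c' x, c' y, c' z) = t).card =
      (fib G S x y z (c x, c y, c z)).card := by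
    rintro ⟨i, j, k⟩ ht
    have h1 := card_fib_le (G := G) hx hy hz ht (hmem c hc)
    have h2 := card_fib_le (G := G) hx hy hz (hmem c hc) ht
    have h3 : ((cols G S 4).filter fun c' => (c' x, c' y, c' z) = (i, j, k)).card =
        (fib G S x y z (i, j, k)).card := by
      unfold fib
      congr
    rw [h3]
    omega
  rw [hsum, sum_congr rfl hall, sum_const, card_trip, hcN, smul_eq_mul]

end Pool.Agent.Xu.H16
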